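import Pool.Agent.N90.ST.Gen

/-!
# Relations with pairs added are unions of small relations
-/

set_option autoImplicit false
set_option linter.unusedSectionVars false

namespace Pool.Agent.N90.ST

open Module Finset Pool.Agent.N90.SX

variable {G X : Type*} [Group G] [Fintype G] [Fintype X] [DecidableEq X] [MulAction G X]

/-- a multiset which is a relation of even weight -/
def IsRelM (G : Type*) {X : Type*} [Group G] [MulAction G X] (ε : X → ℤ) (w : X → ℤ)
    (t : Multiset X) : Prop :=
  (∀ h : G, (t.map fun x => ε (h • x)).sum = 0) ∧ Even (t.map w).sum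

/-- the unions of relations with at most `N` elements -/
def Unions (G : Type*) {X : Type*} [Group G] [MulAction G X] (ε : X → ℤ) (w : X → ℤ) (N : ℕ) :
    AddSubmonoid (Multiset X) :=
  AddSubmonoid.closure {t | IsRelM G ε w t ∧ t.card ≤ N}

/-- the multiset with given multiplicities -/
def msum (f : X → ℕ) (b : X → X) : Multiset X := ∑ y, f y • ({b y} : Multiset X)

theorem msum_map_sum (f : X → ℕ) (b : X → X) (φ : X → ℤ) :
    ((msum f b).map φ).sum = ∑ y, (f y : ℤ) * φ (b y) := by
  unfold msum
  have h1 : ∀ s : Finset X, ((∑ y ∈ s, f y • ({b y} : Multiset X)).map φ).sum =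
      ∑ y ∈ s, (f y : ℤ) * φ (b y) := by
    intro s
    induction s using Finset.induction_on with
    | empty => simp
    | insert a s ha ih =>
      rw [sum_insert ha, sum_insert ha, Multiset.map_add, Multiset.sum_add, ih,
        Multiset.map_nsmul, Multiset.sum_nsmul, Multiset.map_singleton, Multiset.sum_singleton,
        nsmul_eq_mul]
  exact h1 univ

theorem msum_card (f : X → ℕ) (b : X → X) : (msum f b).card = ∑ y, f y := by
  unfold msum
  rw [Multiset.card_sum]
  exact sum_congr rfl fun y _ => by rw [Multiset.card_nsmul, Multiset.card_singleton, mul_one]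

theorem msum_map (f : X → ℕ) (b : X → X) : (msum f id).map b = msum f b := by
  unfold msum
  have h1 : ∀ s : Finset X, (∑ y ∈ s, f y • ({id y} : Multiset X)).map b =
      ∑ y ∈ s, f y • ({b y} : Multiset X) := by
    intro s
    induction s using Finset.induction_on with
    | empty => simp
    | insert a s ha ih =>
      rw [sum_insert ha, sum_insert ha, Multiset.map_add, ih, Multiset.map_nsmul,
        Multiset.map_singleton]
      rfl
  exact h1 univ

theorem msum_count (f : X → ℕ) (y : X) : (msum f id).count y = f y := by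
  unfold msum
  rw [Multiset.count_sum']
  rw [sum_eq_single y]
  · rw [Multiset.count_nsmul]
    simp
  · intro z _ hz
    rw [Multiset.count_nsmul, Multiset.count_singleton, if_neg (by simpa using hz.symm), mul_zero]
  · intro h
    exact absurd (mem_univ _) h

/-- **Relations with pairs added are unions of small relations.** -/
theorem exists_pairs {ε : X → ℤ} {w : X → ℤ} (bar : X → X)
    (hbε : ∀ (h : G) y, ε (h • bar y) = -ε (h • y)) (hbw : ∀ y, Even (w y + w (bar y)))
    {B N : ℕ} (hN : Fintype.card X * B ≤ N) (u : Multiset X)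
    (hu : (fun y => (u.count y : ℤ)) ∈ AddSubgroup.closure (shortZ G ε w B)) :
    ∃ P : Multiset X, u + P + P.map bar ∈ Unions G ε w N := by
  have hneg : -(shortZ G ε w B) ⊆ shortZ G ε w B := by
    intro n hn
    rw [Set.mem_neg] at hn
    obtain ⟨h1, h2, h3⟩ := hn
    refine ⟨fun h => ?_, ?_, fun y => ?_⟩
    · have h4 := h1 h
      simp only [Pi.neg_apply, neg_mul, sum_neg_distrib, neg_eq_zero] at h4
      exact h4
    · simp only [Pi.neg_apply, neg_mul, sum_neg_distrib, even_neg] at h2
      exact h2
    · have h4 := h3 y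
      rwa [Pi.neg_apply, abs_neg] at h4
  have hu' : (fun y => (u.count y : ℤ)) ∈ AddSubmonoid.closure (shortZ G ε w B) := by
    have h1 : (fun y => (u.count y : ℤ)) ∈ (AddSubgroup.closure (shortZ G ε w B)).toAddSubmonoid :=
      hu
    rw [AddSubgroup.closure_toAddSubmonoid, Set.union_eq_self_of_subset_right hneg] at h1
    exact h1
  have key : ∀ n ∈ AddSubmonoid.closure (shortZ G ε w B), ∃ T ∈ Unions G ε w N,
      ∃ P : Multiset X, ∀ y, (T.count y : ℤ) = n y + P.count y + (P.map bar).count y := by
    intro n hn
    induction hn using AddSubmonoid.closure_induction with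
    | mem s hs =>
      obtain ⟨h1, h2, h3⟩ := hs
      have hpm : ∀ y, (s y) = ((s y).toNat : ℤ) - ((-s y).toNat : ℤ) := fun y => by omega
      refine ⟨msum (fun y => (s y).toNat) id + msum (fun y => (-s y).toNat) bar,
        AddSubmonoid.subset_closure ⟨⟨fun h => ?_, ?_⟩, ?_⟩, msum (fun y => (-s y).toNat) id,
          fun y => ?_⟩
      · rw [Multiset.map_add, Multiset.sum_add, msum_map_sum, msum_map_sum, ← h1 h,
          ← sum_add_distrib]
        refine sum_congr rfl fun y _ => ?_
        rw [hbε, id]
        conv_rhs => rw [hpm y]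
        ring
      · rw [Multiset.map_add, Multiset.sum_add, msum_map_sum, msum_map_sum, ← sum_add_distrib]
        have h4 : ∑ y, (((s y).toNat : ℤ) * w (id y) + ((-s y).toNat : ℤ) * w (bar y)) =
            ∑ y, s y * w y + ∑ y, ((-s y).toNat : ℤ) * (w y + w (bar y)) := by
          rw [← sum_add_distrib]
          refine sum_congr rfl fun y _ => ?_
          rw [id]
          conv_rhs => rw [hpm y]
          have h5 : ((-(((s y).toNat : ℤ) - ((-s y).toNat : ℤ))).toNat : ℤ) =
              ((-s y).toNat : ℤ) := by
            congr 2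
            rw [← hpm y]
          rw [h5]
          ring
        rw [h4]
        refine h2.add ?_
        exact Finset.even_sum _ fun y _ => (hbw y).mul_left _
      · rw [Multiset.card_add, msum_card, msum_card, ← sum_add_distrib]
        refine le_trans ?_ hN
        rw [← smul_eq_mul, ← Finset.card_univ, ← sum_const]
        refine sum_le_sum fun y _ => ?_
        have h4 := h3 y
        rw [abs_le] at h4
        omega
      · rw [Multiset.count_add, msum_count, msum_count, msum_map]
        push_cast
        have h4 := hpm y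
        omega
    | zero =>
      refine ⟨0, (Unions G ε w N).zero_mem, 0, fun y => by simp⟩
    | add a b _ _ ha hb =>
      obtain ⟨T1, hT1, P1, h1⟩ := ha
      obtain ⟨T2, hT2, P2, h2⟩ := hb
      refine ⟨T1 + T2, (Unions G ε w N).add_mem hT1 hT2, P1 + P2, fun y => ?_⟩
      rw [Multiset.count_add, Multiset.count_add, Multiset.map_add, Multiset.count_add,
        Pi.add_apply]
      push_cast
      rw [h1, h2]
      ring
  obtain ⟨T, hT, P, h1⟩ := key _ hu'
  refine ⟨P, ?_⟩
  have h2 : u + P + P.map bar = T := by
    ext y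
    rw [Multiset.count_add, Multiset.count_add]
    have h3 := h1 y
    omega
  rw [h2]
  exact hT

/-- **The relations**, with pairs added, are unions of small relations. -/
theorem rel_pairs {ε : X → ℤ} {w : X → ℤ} {M : ℕ} (hM : 1 ≤ M) (hε : ∀ x, |ε x| ≤ M) {I : Type*}
    [Fintype I] (x : I → X) (hx : ∀ y, ∃ i, ∃ g : G, g • x i = y) {P e N : ℕ}
    (hP : Fintype.card X ≤ P)
    (he : Fintype.card I * P * (Nat.log 2 P + 5) ≤ e ^ 2 ∨
      2 * P ^ 2 * (Nat.log 2 P + 5) ≤ e ^ 3) (bar : X → X)
    (hbε : ∀ (h : G) y, ε (h • bar y) = -ε (h • y)) (hbw : ∀ y, Even (w y + w (bar y)))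
    (hN : 2 * P ^ 2 * (P * M) ^ e ≤ N) (u : Multiset X) (hu : IsRelM G ε w u) :
    ∃ Q : Multiset X, u + Q + Q.map bar ∈ Unions G ε w N := by
  have hcount : ∀ φ : X → ℤ, (u.map φ).sum = ∑ y, (u.count y : ℤ) * φ y := by
    intro φ
    rw [Finset.sum_multiset_map_count]
    have h1 : ∀ y ∈ (univ : Finset X), y ∉ u.toFinset → u.count y • φ y = 0 := by
      intro y _ hy
      rw [Multiset.mem_toFinset] at hy
      rw [Multiset.count_eq_zero_of_notMem hy, zero_smul]
    rw [Finset.sum_subset (subset_univ _) h1]
    exact sum_congr rfl fun y _ => by rw [nsmul_eq_mul]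
  refine exists_pairs bar hbε hbw (B := 2 * P * (P * M) ^ e) ?_ u ?_
  · calc Fintype.card X * (2 * P * (P * M) ^ e) ≤ P * (2 * P * (P * M) ^ e) :=
          Nat.mul_le_mul_right _ hP
      _ = 2 * P ^ 2 * (P * M) ^ e := by ring
      _ ≤ N := hN
  · refine gen_short hM hε x hx hP he w _ (fun h => ?_) ?_
    · rw [← hu.1 h, hcount]
    · have h1 := hu.2
      rw [hcount] at h1
      exact h1

end Pool.Agent.N90.ST
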