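import Pool.Agent.H485R3.Kron
import Pool.Agent.H485R3.K3Type
import Pool.Agent.R401.Iso
import Pool.Agent.N90.ST.Mset

/-!
# Relations between Weil numbers
-/

set_option autoImplicit false
set_option linter.unusedSectionVars false

namespace Pool.Agent.N90.ST

open Polynomial NumberField

noncomputable section

/-- Monic integral polynomials `P i`; all roots of `P i` have complex absolute value `q ^ (i / 2)`,
`q = p ^ r`, and the `p`-adic absolute values `q ^ (- c / D)` with integers `c`. -/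
structure WeilPolys (p r D : ℕ) [Fact p.Prime] (P : ℕ → ℤ[X]) : Prop where
  monic : ∀ i, (P i).Monic
  weil : ∀ i (z : ℂ), aeval z (P i) = 0 → ‖z‖ ^ 2 = ((p : ℝ) ^ r) ^ i
  slope : ∀ i (β : PadicAlgCl p), aeval β (P i) = 0 → ∃ c : ℕ, c ≤ D * i ∧
    ‖β‖ ^ D = (((p : ℝ) ^ r)⁻¹) ^ c

/-- a Galois number field which splits the polynomials -/
theorem exists_field (n : ℕ) {P : ℕ → ℤ[X]} (hP : ∀ i, (P i).Monic) :
    ∃ (L : Type) (_ : Field L) (_ : NumberField L) (_ : IsGalois ℚ L),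
      ∀ i ≤ n, ((P i).map (Int.castRingHom L)).Splits := by
  let g : ℚ[X] := ∏ i ∈ Finset.range (n + 1), (P i).map (Int.castRingHom ℚ)
  have h1 : IsSplittingField ℚ g.SplittingField g := IsSplittingField.splittingField g
  obtain ⟨L, hF, hA, hfin, hgal, hsp⟩ : ∃ (L : Type) (_ : Field L) (_ : Algebra ℚ L),
      FiniteDimensional ℚ L ∧ IsGalois ℚ L ∧ (g.map (algebraMap ℚ L)).Splits := by
    refine ⟨g.SplittingField, inferInstance, inferInstance, ?_, ?_, ?_⟩
    · exact IsSplittingField.finiteDimensional g.SplittingField g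
    · rw [isGalois_iff]
      exact ⟨inferInstance, Normal.of_isSplittingField g⟩
    · exact IsSplittingField.splits g.SplittingField g
  have hc : CharZero L := algebraRat.charZero L
  have h0 : hA = DivisionRing.toRatAlgebra := Subsingleton.elim _ _
  subst h0
  refine ⟨L, hF, ⟨⟩, hgal, fun i hi => ?_⟩
  have h2 : (P i).map (Int.castRingHom L) =
      ((P i).map (Int.castRingHom ℚ)).map (algebraMap ℚ L) := by
    rw [Polynomial.map_map]
    congr 1
    exact RingHom.ext_int _ _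
  rw [h2]
  refine hsp.of_dvd ?_ ?_
  · refine (Polynomial.map_ne_zero_iff (algebraMap ℚ L).injective).2 ?_
    exact Finset.prod_ne_zero_iff.2 fun i _ => ((hP i).map _).ne_zero
  · exact Polynomial.map_dvd _ (Finset.dvd_prod_of_mem (fun i => (P i).map (Int.castRingHom ℚ))
      (Finset.mem_range.2 (by omega)))

/-- Kronecker's theorem. -/
theorem root_of_unity {L : Type} [Field L] [NumberField L] [IsGalois ℚ L] (x : L)
    (h0 : ∀ φ : L →+* ℂ, ‖φ x‖ = 1)
    (hl : ∀ (l : ℕ) [Fact l.Prime] (e : L →+* PadicAlgCl l), ‖e x‖ = 1) :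
    ∃ s : ℕ, 0 < s ∧ x ^ s = 1 := by
  refine Pool.Agent.H485R3.pow_eq_one_of_norm x ?_ fun φ => h0 (φ : L →+* ℂ)
  exact Pool.Agent.H485R3.isIntegral_of_norm_le x fun l _ e => (hl l (e : L →+* PadicAlgCl l)).le

/-- embeddings of a Galois field -/
theorem exists_aut {L : Type} [Field L] [NumberField L] [IsGalois ℚ L] {p : ℕ} [Fact p.Prime]
    (τ e : L →+* PadicAlgCl p) : ∃ g : L ≃ₐ[ℚ] L, ∀ x, e x = τ (g x) := by
  obtain ⟨ν⟩ := Pool.Agent.R401.Iso.exists_iso p
  obtain ⟨θ, hθ⟩ := ComplexEmbedding.exists_comp_symm_eq_of_comp_eq (k := ℚ)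
    ((ν : PadicAlgCl p →+* ℂ).comp τ) ((ν : PadicAlgCl p →+* ℂ).comp e) (Subsingleton.elim _ _)
  refine ⟨θ.symm, fun x => ν.injective ?_⟩
  exact (RingHom.congr_fun hθ x).symm

theorem aeval_hom {A B : Type*} [CommRing A] [Algebra ℤ A] [CommRing B] [Algebra ℤ B]
    (f : A →+* B) (x : A) (P : ℤ[X]) : aeval (f x) P = f (aeval x P) := by
  rw [aeval_def, aeval_def, hom_eval₂]
  congr 1
  exact RingHom.ext_int _ _

/-- The pairs of a root and a degree. -/
def Lam (L : Type) [Field L] (n : ℕ) (P : ℕ → ℤ[X]) : Type :=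
  {y : L × Fin (n + 1) // aeval y.1 (P y.2) = 0}

variable {L : Type} [Field L] {n : ℕ} {P : ℕ → ℤ[X]}

/-- the root -/
def Lam.vl (y : Lam L n P) : L := y.1.1

/-- the degree -/
def Lam.dg (y : Lam L n P) : ℕ := y.1.2

theorem Lam.root (y : Lam L n P) : aeval y.vl (P y.dg) = 0 := y.2

theorem Lam.dg_le (y : Lam L n P) : y.dg ≤ n := Nat.lt_succ_iff.1 y.1.2.2

theorem Lam.ext {y y' : Lam L n P} (h1 : y.vl = y'.vl) (h2 : y.dg = y'.dg) : y = y' :=
  Subtype.ext (Prod.ext h1 (Fin.ext h2))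

/-- constructor -/
def Lam.mk (β : L) (i : ℕ) (hi : i ≤ n) (h : aeval β (P i) = 0) : Lam L n P :=
  ⟨(β, ⟨i, Nat.lt_succ_iff.2 hi⟩), h⟩

theorem Lam.card [CharZero L] (hP : ∀ i, (P i).Monic) [Fintype (Lam L n P)] :
    Fintype.card (Lam L n P) ≤ ∑ i ∈ Finset.range (n + 1), (P i).natDegree := by
  classical
  have h1 : Fintype.card (Lam L n P) ≤ ((Finset.range (n + 1)).sigma
      fun i => ((P i).aroots L).toFinset).card := by
    rw [← Finset.card_univ]
    refine Finset.card_le_card_of_injOn (fun y => (⟨y.dg, y.vl⟩ : Σ _ : ℕ, L)) ?_ ?_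
    · intro y _
      rw [Finset.mem_coe, Finset.mem_sigma]
      refine ⟨Finset.mem_range.2 (Nat.lt_succ_iff.2 y.dg_le), ?_⟩
      rw [Multiset.mem_toFinset, mem_aroots]
      exact ⟨(hP _).ne_zero, y.root⟩
    · intro y _ y' _ h
      simp only [Sigma.mk.injEq] at h
      exact Lam.ext (eq_of_heq h.2) h.1
  refine h1.trans ?_
  rw [Finset.card_sigma]
  refine Finset.sum_le_sum fun i _ => ?_
  refine (Multiset.toFinset_card_le _).trans ?_
  exact card_roots_map_le_natDegree _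

instance Lam.finite [CharZero L] [hP : Fact (∀ i, (P i).Monic)] : Finite (Lam L n P) := by
  classical
  have h1 : ∀ i, Finite {β : L // aeval β (P i) = 0} := by
    intro i
    refine Set.Finite.to_subtype (s := {β : L | aeval β (P i) = 0}) ?_
    refine (((P i).aroots L).toFinset.finite_toSet).subset ?_
    intro β hβ
    rw [Finset.mem_coe, Multiset.mem_toFinset, mem_aroots]
    exact ⟨(hP.out _).ne_zero, hβ⟩
  refine Finite.of_injective (β := Σ i : Fin (n + 1), {β : L // aeval β (P i) = 0})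
    (fun y => ⟨y.1.2, y.1.1, y.2⟩) ?_
  rintro ⟨⟨β, i⟩, h⟩ ⟨⟨β', i'⟩, h'⟩ he
  simp only [Sigma.mk.injEq] at he
  obtain ⟨h2, h3⟩ := he
  subst h2
  have h4 := eq_of_heq h3
  simp only [Subtype.mk.injEq] at h4
  subst h4
  rfl

variable [NumberField L]

instance : MulAction (L ≃ₐ[ℚ] L) (Lam L n P) where
  smul g y := ⟨(g y.1.1, y.1.2), by
    have h1 := aeval_hom (g : L →+* L) y.1.1 (P y.1.2)
    change aeval ((g : L →+* L) y.1.1) (P y.1.2) = 0
    rw [h1, y.2, map_zero]⟩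
  one_smul y := rfl
  mul_smul g h y := rfl

theorem Lam.smul_vl (g : L ≃ₐ[ℚ] L) (y : Lam L n P) : (g • y).vl = g y.vl := rfl

theorem Lam.smul_dg (g : L ≃ₐ[ℚ] L) (y : Lam L n P) : (g • y).dg = y.dg := rfl

/-- the product -/
def prodL (t : Multiset (Lam L n P)) : L := (t.map Lam.vl).prod

theorem smul_prodL (g : L ≃ₐ[ℚ] L) (t : Multiset (Lam L n P)) :
    g (prodL t) = (t.map fun y => (g • y).vl).prod := by
  rw [prodL, map_multiset_prod, Multiset.map_map]
  rfl

variable {p r D : ℕ} [Fact p.Prime] (hP : WeilPolys p r D P) (τ : L →+* PadicAlgCl p)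

/-- the slope -/
def cc (y : Lam L n P) : ℕ :=
  (hP.slope y.dg (τ y.vl) (by rw [aeval_hom, y.root, map_zero])).choose

theorem cc_le (y : Lam L n P) : cc hP τ y ≤ D * y.dg :=
  (hP.slope y.dg (τ y.vl) (by rw [aeval_hom, y.root, map_zero])).choose_spec.1

theorem cc_spec (y : Lam L n P) : ‖τ y.vl‖ ^ D = (((p : ℝ) ^ r)⁻¹) ^ cc hP τ y :=
  (hP.slope y.dg (τ y.vl) (by rw [aeval_hom, y.root, map_zero])).choose_spec.2

/-- the sign function -/
def eps (y : Lam L n P) : ℤ := 2 * (cc hP τ y : ℤ) - D * y.dg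

theorem eps_le (y : Lam L n P) : |eps hP τ y| ≤ ((n * D + 1 : ℕ) : ℤ) := by
  have h1 := cc_le hP τ y
  have h2 : D * y.dg ≤ n * D := by
    rw [mul_comm]
    exact Nat.mul_le_mul_right _ y.dg_le
  have h3 : ((D * y.dg : ℕ) : ℤ) = D * y.dg := by push_cast; rfl
  rw [eps, abs_le, ← h3]
  omega

theorem norm_prodL (g : L ≃ₐ[ℚ] L) (t : Multiset (Lam L n P)) :
    ‖τ (g (prodL t))‖ ^ D = (((p : ℝ) ^ r)⁻¹) ^ (t.map fun y => cc hP τ (g • y)).sum := by
  rw [smul_prodL]
  induction t using Multiset.induction with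
  | empty => simp
  | cons y t ih =>
    rw [Multiset.map_cons, Multiset.prod_cons, Multiset.map_cons, Multiset.sum_cons, map_mul,
      norm_mul, mul_pow, ih, pow_add, cc_spec]

theorem sum_eps (g : L ≃ₐ[ℚ] L) (t : Multiset (Lam L n P)) :
    (t.map fun y => eps hP τ (g • y)).sum =
      2 * ((t.map fun y => cc hP τ (g • y)).sum : ℤ) - D * ((t.map Lam.dg).sum : ℕ) := by
  induction t using Multiset.induction with
  | empty => simp
  | cons y t ih =>
    simp only [Multiset.map_cons, Multiset.sum_cons]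
    rw [ih, eps, Lam.smul_dg]
    push_cast
    ring

theorem sum_dg (t : Multiset (Lam L n P)) :
    (t.map fun y => ((y.dg : ℕ) : ℤ)).sum = (((t.map Lam.dg).sum : ℕ) : ℤ) := by
  induction t using Multiset.induction with
  | empty => simp
  | cons y t ih =>
    simp only [Multiset.map_cons, Multiset.sum_cons]
    rw [ih]
    push_cast
    ring

theorem norm_p (p : ℕ) [Fact p.Prime] : ‖(p : PadicAlgCl p)‖ = (p : ℝ)⁻¹ := by
  have h1 : (p : PadicAlgCl p) = algebraMap ℚ_[p] (PadicAlgCl p) (p : ℚ_[p]) := by simp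
  rw [h1, PadicAlgCl.norm_extends]
  exact Padic.norm_p

theorem q_inj (hr : 0 < r) : Function.Injective fun c : ℕ => (((p : ℝ) ^ r)⁻¹) ^ c := by
  have hp : (1 : ℝ) < p := by exact_mod_cast (Fact.out : p.Prime).one_lt
  have h1 : (1 : ℝ) < (p : ℝ) ^ r := one_lt_pow₀ hp hr.ne'
  have h2 : 0 < (((p : ℝ) ^ r)⁻¹) := by positivity
  refine pow_right_injective₀ h2 ?_
  exact (inv_lt_one_of_one_lt₀ h1).ne

/-- Tate multisets are relations. -/
theorem rel_of_tate (hr : 0 < r) {t : Multiset (Lam L n P)} {j b : ℕ} (hb : 0 < b)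
    (h1 : (t.map Lam.dg).sum = 2 * j) (h2 : prodL t ^ b = (((p : L) ^ r) ^ j) ^ b) :
    IsRelM (L ≃ₐ[ℚ] L) (eps hP τ) (fun y => (y.dg : ℤ)) t := by
  constructor
  · intro g
    rw [sum_eps, h1]
    have h3 := congrArg (fun x => ‖τ (g x)‖ ^ D) h2
    simp only [map_pow, map_natCast, norm_pow, norm_p] at h3
    rw [← pow_mul _ b D, mul_comm b D, pow_mul, norm_prodL hP τ, ← pow_mul] at h3
    have h4 : ((((p : ℝ)⁻¹ ^ r) ^ j) ^ b) ^ D = (((p : ℝ) ^ r)⁻¹) ^ (j * b * D) := by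
      rw [inv_pow, ← pow_mul, ← pow_mul, mul_assoc]
    rw [h4] at h3
    have h5 := q_inj (p := p) hr h3
    have h6 : (t.map fun y => cc hP τ (g • y)).sum = j * D := by
      apply Nat.eq_of_mul_eq_mul_right hb
      rw [h5]
      ring
    rw [h6]
    push_cast
    ring
  · have h3 := sum_dg t
    rw [h3, h1]
    exact ⟨(j : ℤ), by push_cast; ring⟩

/-- the complex absolute value of the product -/
theorem norm_prod_complex (hP : WeilPolys p r D P) (φ : L →+* ℂ) (t : Multiset (Lam L n P)) :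
    ‖φ (prodL t)‖ ^ 2 = ((p : ℝ) ^ r) ^ (t.map Lam.dg).sum := by
  induction t using Multiset.induction with
  | empty => simp [prodL]
  | cons y t ih =>
    have h1 : prodL (y ::ₘ t) = y.vl * prodL t := by
      rw [prodL, prodL, Multiset.map_cons, Multiset.prod_cons]
    rw [h1, map_mul, norm_mul, mul_pow, ih, Multiset.map_cons, Multiset.sum_cons, pow_add,
      hP.weil y.dg (φ y.vl) (by rw [aeval_hom, y.root, map_zero])]

theorem vl_ne_zero (hP : WeilPolys p r D P) (y : Lam L n P) : y.vl ≠ 0 := by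
  intro h0
  obtain ⟨φ⟩ : Nonempty (L →+* ℂ) := inferInstance
  have h1 := hP.weil y.dg (φ y.vl) (by rw [aeval_hom, y.root, map_zero])
  have hp : (0 : ℝ) < p := by exact_mod_cast (Fact.out : p.Prime).pos
  have h2 : (0 : ℝ) < ((p : ℝ) ^ r) ^ y.dg := by positivity
  rw [h0, map_zero, norm_zero, zero_pow two_ne_zero] at h1
  rw [← h1] at h2
  exact lt_irrefl _ h2

/-- the eigenvalues are units outside `p` -/
theorem norm_other (hP : WeilPolys p r D P) (y : Lam L n P) (l : ℕ) [Fact l.Prime] (hl : l ≠ p)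
    (e : L →+* PadicAlgCl l) : ‖e y.vl‖ = 1 := by
  have hint : ∀ β : L, aeval β (P y.dg) = 0 → ‖e β‖ ≤ 1 := by
    intro β hβ
    have h1 : IsIntegral ℤ β := ⟨P y.dg, hP.monic _, hβ⟩
    exact Pool.Agent.H485R3.norm_int_le l e (⟨β, h1⟩ : 𝓞 L)
  have h0 := vl_ne_zero hP y
  have h1 : aeval (((p : L) ^ r) ^ y.dg / y.vl) (P y.dg) = 0 := by
    obtain ⟨φ⟩ : Nonempty (L →+* ℂ) := inferInstance
    apply φ.injective
    rw [← aeval_hom, map_zero, map_div₀, map_pow, map_pow, map_natCast]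
    have h2 := hP.weil y.dg (φ y.vl) (by rw [aeval_hom, y.root, map_zero])
    have h3 : (((p : ℂ) ^ r) ^ y.dg) / φ y.vl = (starRingEnd ℂ) (φ y.vl) := by
      rw [div_eq_iff ((map_ne_zero φ).2 h0), mul_comm, Complex.mul_conj,
        Complex.normSq_eq_norm_sq, h2]
      push_cast
      rfl
    rw [h3]
    change aeval ((starRingEnd ℂ) (φ y.vl)) (P y.dg) = 0
    rw [aeval_hom (starRingEnd ℂ), aeval_hom, y.root, map_zero, map_zero]
  have h2 := hint _ y.root
  have h3 := hint _ h1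
  have h4 : ‖((p : ℕ) : PadicAlgCl l)‖ = 1 := by
    have h5 : ((p : ℕ) : PadicAlgCl l) = algebraMap ℚ_[l] (PadicAlgCl l) (p : ℚ_[l]) := by simp
    rw [h5, PadicAlgCl.norm_extends]
    rw [Padic.norm_natCast_eq_one_iff]
    exact (Nat.coprime_primes (Fact.out : l.Prime) (Fact.out : p.Prime)).2 hl
  rw [map_div₀, map_pow, map_pow, map_natCast, norm_div, norm_pow, norm_pow, h4, one_pow,
    one_pow] at h3
  have h5 : 0 < ‖e y.vl‖ := norm_pos_iff.2 ((map_ne_zero e).2 h0)
  rw [div_le_one h5] at h3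
  exact le_antisymm h2 h3

/-- Relations are Tate multisets. -/
theorem tate_of_rel [IsGalois ℚ L] (hD : 0 < D) {t : Multiset (Lam L n P)}
    (h : IsRelM (L ≃ₐ[ℚ] L) (eps hP τ) (fun y => (y.dg : ℤ)) t) :
    ∃ j b : ℕ, 0 < b ∧ (t.map Lam.dg).sum = 2 * j ∧ prodL t ^ b = (((p : L) ^ r) ^ j) ^ b := by
  obtain ⟨h1, h2⟩ := h
  rw [sum_dg] at h2
  obtain ⟨j, hj⟩ : ∃ j : ℕ, (t.map Lam.dg).sum = 2 * j := by
    obtain ⟨j, hj⟩ := h2
    exact ⟨j.toNat, by omega⟩
  have hp0 : ((p : L) ^ r) ^ j ≠ 0 :=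
    pow_ne_zero _ (pow_ne_zero _ (Nat.cast_ne_zero.2 (Fact.out : p.Prime).ne_zero))
  suffices key : ∃ b : ℕ, 0 < b ∧ (prodL t / ((p : L) ^ r) ^ j) ^ b = 1 by
    obtain ⟨b, hb, hbe⟩ := key
    refine ⟨j, b, hb, hj, ?_⟩
    rw [div_pow, div_eq_one_iff_eq (pow_ne_zero _ hp0)] at hbe
    exact hbe
  apply root_of_unity
  · intro φ
    have h3 := norm_prod_complex hP φ t
    have hp : (0 : ℝ) < p := by exact_mod_cast (Fact.out : p.Prime).pos
    have h4 : ‖φ (prodL t / ((p : L) ^ r) ^ j)‖ ^ 2 = 1 := by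
      rw [map_div₀, norm_div, div_pow, h3, hj, map_pow, map_pow, map_natCast, norm_pow, norm_pow,
        Complex.norm_natCast, ← pow_mul _ j 2, mul_comm j 2]
      exact div_self (by positivity)
    exact (pow_eq_one_iff_of_nonneg (norm_nonneg _) two_ne_zero).1 h4
  · intro l _ e
    by_cases hl : l = p
    · subst hl
      obtain ⟨g, hg⟩ := exists_aut τ e
      have h3 := norm_prodL hP τ g t
      have h4 := h1 g
      rw [sum_eps, hj] at h4
      have h5 : (t.map fun y => cc hP τ (g • y)).sum = j * D := by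
        have h6 : (2 : ℤ) * ((t.map fun y => cc hP τ (g • y)).sum : ℕ) = 2 * ((j * D : ℕ) : ℤ) := by
          push_cast
          push_cast at h4
          linarith
        omega
      rw [h5] at h3
      have hp : (0 : ℝ) < l := by exact_mod_cast (Fact.out : l.Prime).pos
      have h6 : ‖e (prodL t / ((l : L) ^ r) ^ j)‖ ^ D = 1 := by
        rw [hg, map_div₀, map_div₀, norm_div, div_pow, h3, map_pow, map_pow, map_pow, map_pow,
          map_natCast, map_natCast, norm_pow, norm_pow, norm_p, ← pow_mul _ j D,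
          inv_pow (l : ℝ) r]
        exact div_self (pow_ne_zero _ (inv_ne_zero (pow_ne_zero _ hp.ne')))
      exact (pow_eq_one_iff_of_nonneg (norm_nonneg _) hD.ne').1 h6
    · have h3 : ‖e (prodL t)‖ = 1 := by
        clear h1 h2 hj hp0
        induction t using Multiset.induction with
        | empty => simp [prodL]
        | cons y t ih =>
          have h1 : prodL (y ::ₘ t) = y.vl * prodL t := by
            rw [prodL, prodL, Multiset.map_cons, Multiset.prod_cons]
          rw [h1, map_mul, norm_mul, ih, mul_one]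
          exact norm_other hP y l hl e
      have h4 : ‖((p : ℕ) : PadicAlgCl l)‖ = 1 := by
        have h5 : ((p : ℕ) : PadicAlgCl l) = algebraMap ℚ_[l] (PadicAlgCl l) (p : ℚ_[l]) := by
          simp
        rw [h5, PadicAlgCl.norm_extends]
        rw [Padic.norm_natCast_eq_one_iff]
        exact (Nat.coprime_primes (Fact.out : l.Prime) (Fact.out : p.Prime)).2 hl
      rw [map_div₀, norm_div, h3, map_pow, map_pow, map_natCast, norm_pow, norm_pow, h4, one_pow,
        one_pow, div_one]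

/-- The orbits are given by the degrees and the minimal polynomials. -/
theorem exists_smul [IsGalois ℚ L] {y y' : Lam L n P} (h1 : y.dg = y'.dg)
    (h2 : minpoly ℚ y.vl = minpoly ℚ y'.vl) : ∃ g : L ≃ₐ[ℚ] L, g • y = y' := by
  obtain ⟨g, hg⟩ := (Normal.minpoly_eq_iff_mem_orbit (F := ℚ) L).1 h2.symm
  exact ⟨g, Lam.ext hg h1⟩

/-- Dual pairs. -/
theorem eps_dual (hr : 0 < r) (y y' : Lam L n P) {h : ℕ} (h1 : 2 * h = y.dg + y'.dg)
    (h2 : y'.vl * y.vl = (p : L) ^ (r * h)) : eps hP τ y' = -eps hP τ y := by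
  have h3 : ‖τ y'.vl‖ ^ D * ‖τ y.vl‖ ^ D = (((p : ℝ) ^ r)⁻¹) ^ (h * D) := by
    rw [← mul_pow, ← norm_mul, ← map_mul, h2, map_pow, map_natCast, norm_pow, norm_p, ← inv_pow,
      ← pow_mul, ← pow_mul, mul_assoc]
  rw [cc_spec hP τ y', cc_spec hP τ y, ← pow_add] at h3
  have h4 := q_inj (p := p) hr h3
  rw [eps, eps]
  have h7 : (2 : ℤ) * h = y.dg + y'.dg := by exact_mod_cast h1
  have h8 : (cc hP τ y' : ℤ) + cc hP τ y = h * D := by exact_mod_cast h4
  linear_combination 2 * h8 + (D : ℤ) * h7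

include hP in
/-- **Tate multisets with pairs added are unions of small Tate multisets.** -/
theorem tate_pairs [IsGalois ℚ L] (hr : 0 < r) (hD : 0 < D) {k e N b : ℕ}
    (hb : ∑ i ∈ Finset.range (n + 1), (P i).natDegree ≤ b)
    (hk : (Set.range fun y : Lam L n P => (y.dg, minpoly ℚ y.vl)).ncard ≤ k)
    (he : k * b * (Nat.log 2 b + 5) ≤ e ^ 2 ∨ 2 * b ^ 2 * (Nat.log 2 b + 5) ≤ e ^ 3)
    (hN : 2 * b ^ 2 * (b * (n * D + 1)) ^ e ≤ N) (bar : Lam L n P → Lam L n P)
    (hbar : ∀ y, ∃ h, 2 * h = y.dg + (bar y).dg ∧ (bar y).vl * y.vl = (p : L) ^ (r * h))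
    {t : Multiset (Lam L n P)} {j s : ℕ}
    (hs : 0 < s) (h1 : (t.map Lam.dg).sum = 2 * j) (h2 : prodL t ^ s = (((p : L) ^ r) ^ j) ^ s) :
    ∃ Q : Multiset (Lam L n P), t + Q + Q.map bar ∈ AddSubmonoid.closure
      {t : Multiset (Lam L n P) | (∃ j b : ℕ, 0 < b ∧ (t.map Lam.dg).sum = 2 * j ∧
        prodL t ^ b = (((p : L) ^ r) ^ j) ^ b) ∧ t.card ≤ N} := by
  classical
  have hmon : Fact (∀ i, (P i).Monic) := ⟨hP.monic⟩
  obtain ⟨τ⟩ : Nonempty (L →+* PadicAlgCl p) :=
    ⟨(IsAlgClosed.lift : L →ₐ[ℚ] PadicAlgCl p).toRingHom⟩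
  have : Fintype (Lam L n P) := Fintype.ofFinite _
  have : Fintype (L ≃ₐ[ℚ] L) := Fintype.ofFinite _
  set f : Lam L n P → ℕ × ℚ[X] := fun y => (y.dg, minpoly ℚ y.vl) with hf
  have hfin : (Set.range f).Finite := Set.finite_range f
  have : Fintype (Set.range f) := hfin.fintype
  have hcard : Fintype.card (Set.range f) ≤ k := by
    rw [← Nat.card_eq_fintype_card]
    exact hk
  have hx : ∀ y : Lam L n P, ∃ i : Set.range f, ∃ g : L ≃ₐ[ℚ] L,
      g • (fun i : Set.range f => i.2.choose) i = y := by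
    intro y
    refine ⟨⟨f y, y, rfl⟩, ?_⟩
    have h3 : f (⟨f y, y, rfl⟩ : Set.range f).2.choose = f y :=
      (⟨f y, y, rfl⟩ : Set.range f).2.choose_spec
    exact exists_smul (congrArg Prod.fst h3) (congrArg Prod.snd h3)
  obtain ⟨Q, hQ⟩ := rel_pairs (G := L ≃ₐ[ℚ] L) (ε := eps hP τ) (w := fun y => (y.dg : ℤ))
    (M := n * D + 1) (Nat.le_add_left _ _) (fun y => eps_le hP τ y)
    (fun i : Set.range f => i.2.choose) hx (P := b) (e := e) (N := N)
    ((Lam.card hP.monic).trans hb) (by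
      rcases he with he | he
      · left
        refine le_trans ?_ he
        exact Nat.mul_le_mul_right _ (Nat.mul_le_mul_right _ hcard)
      · exact Or.inr he) bar
    (fun g y => by
      obtain ⟨h, h3, h4⟩ := hbar y
      refine eps_dual hP τ hr (g • y) (g • bar y) (h := h) h3 ?_
      rw [Lam.smul_vl, Lam.smul_vl, ← map_mul, h4, map_pow, map_natCast])
    (fun y => by
      obtain ⟨h, h3, -⟩ := hbar y
      refine ⟨(h : ℤ), ?_⟩
      omega) hN t (rel_of_tate hP τ hr hs h1 h2)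
  refine ⟨Q, ?_⟩
  refine AddSubmonoid.closure_mono ?_ hQ
  rintro t ⟨ht, hc⟩
  exact ⟨tate_of_rel hP τ hD ht, hc⟩

end

end Pool.Agent.N90.ST
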