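import Pool.Agent.N90.SX.Bound
import Mathlib.LinearAlgebra.BilinearForm.Orthogonal

/-!
# The relations between the conjugates of a function on a finite set are spanned by small ones

A finite group `G` acts on a finite set `X` with `P` elements, `ε` is an integral function on `X` with
values of absolute value at most `M`. The space of the rational functions orthogonal to all the
conjugates of `ε` is spanned by integral functions with values at most `(P M) ^ e`, where
`e ^ 2 ≥ k P (log P + 5)`, `k` the number of the orbits, or `e ^ 3 ≥ 2 P ^ 2 (log P + 5)`.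
-/

set_option autoImplicit false
set_option linter.unusedSectionVars false

namespace Pool.Agent.N90.ST

open Module Finset Pool.Agent.N90.SX

/-- A part of a family which spans a complement of a subspace. -/
theorem exists_part {J X : Type*} [Fintype X] (w : J → X → ℤ) (S : Submodule ℚ (X → ℚ)) :
    ∃ (I : Set ((X → ℚ) ⧸ S)) (c : I → J),
      Submodule.span ℚ (Set.range fun (i : I) x => (w (c i) x : ℚ)) ⊓ S = ⊥ ∧
      Submodule.span ℚ (Set.range fun j x => (w j x : ℚ)) ≤
        Submodule.span ℚ (Set.range fun (i : I) x => (w (c i) x : ℚ)) ⊔ S := by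
  obtain ⟨I, hI, hspan, hli⟩ := exists_linearIndependent ℚ
    (Set.range fun j => S.mkQ fun x => (w j x : ℚ))
  have hI' : ∀ i : I, ∃ j, S.mkQ (fun x => (w j x : ℚ)) = i := fun i => hI i.2
  choose c hc using hI'
  refine ⟨I, c, ?_, ?_⟩
  · rw [eq_bot_iff]
    rintro f ⟨hf, hfS⟩
    obtain ⟨l, rfl⟩ := (Finsupp.mem_span_range_iff_exists_finsupp).1 hf
    have h1 : l.sum (fun i a => a • (i : (X → ℚ) ⧸ S)) = 0 := by
      have h2 : S.mkQ (l.sum fun i a => a • fun x => (w (c i) x : ℚ)) = 0 := by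
        rw [Submodule.mkQ_apply, Submodule.Quotient.mk_eq_zero]
        exact hfS
      rw [map_finsuppSum] at h2
      rw [← h2]
      refine Finsupp.sum_congr fun i _ => ?_
      rw [map_smul, hc]
    have h2 : l = 0 := by
      have h3 := linearIndependent_iff.1 hli l
      apply h3
      rw [Finsupp.linearCombination_apply]
      exact h1
    rw [h2, Finsupp.sum_zero_index]
    exact Submodule.zero_mem _
  · rw [Submodule.span_le]
    rintro _ ⟨j, rfl⟩
    have h1 : S.mkQ (fun x => (w j x : ℚ)) ∈ Submodule.span ℚ I := by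
      rw [hspan]
      exact Submodule.subset_span ⟨j, rfl⟩
    have h2 : Submodule.span ℚ I ≤
        (Submodule.span ℚ (Set.range fun (i : I) x => (w (c i) x : ℚ))).map S.mkQ := by
      rw [Submodule.span_le]
      intro i hi
      exact ⟨_, Submodule.subset_span ⟨⟨i, hi⟩, rfl⟩, hc ⟨i, hi⟩⟩
    obtain ⟨u, hu, hu'⟩ := h2 h1
    have h3 : (fun x => (w j x : ℚ)) - u ∈ S := by
      rw [← Submodule.Quotient.mk_eq_zero, ← Submodule.mkQ_apply, map_sub, hu', sub_self]
    have h4 := Submodule.add_mem_sup hu h3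
    have h5 : u + ((fun x => (w j x : ℚ)) - u) = fun x => (w j x : ℚ) := by abel
    rw [h5] at h4
    exact h4

/-- **A small relation in a subspace, outside another subspace.** -/
theorem rel_avoid {X G J : Type*} [Fintype X] (M : G → X → ℤ) (R : (X → ℚ) →ₗ[ℚ] (G → ℚ))
    (hR : ∀ f h, R f h = ∑ x, f x * M h x) (w : J → X → ℤ) {B C : ℕ}
    (hC1 : 1 ≤ C) (hw : ∀ j x, |w j x| ≤ B) (hC : ∀ j h, |∑ x, w j x * M h x| ≤ C)
    (W S V : Submodule ℚ (X → ℚ)) (hW : W = Submodule.span ℚ (Set.range fun j x => (w j x : ℚ)))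
    (hS : S ≤ LinearMap.ker R) (hVW : V ≤ W) (hVK : V ≤ LinearMap.ker R) (hVS : V ⊓ S = ⊥)
    (hV : 0 < finrank ℚ V) {ν P : ℕ} (hP : finrank ℚ W ≤ P)
    (hν : finrank ℚ W ≤ (ν + 1) * finrank ℚ V ∨ finrank ℚ (W.map R) ≤ ν * finrank ℚ V) :
    ∃ n : X → ℤ, (fun x => (n x : ℚ)) ∉ S ∧ (∀ h, ∑ x, n x * M h x = 0) ∧
      ∀ x, |n x| ≤ (P * B * (P * C) ^ ν : ℕ) := by
  obtain ⟨I, c, h1, h2⟩ := exists_part w S
  obtain ⟨W', hW'⟩ : ∃ W', W' = Submodule.span ℚ (Set.range fun (i : I) x => (w (c i) x : ℚ)) :=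
    ⟨_, rfl⟩
  rw [← hW'] at h1 h2
  rw [← hW] at h2
  have hW'W : W' ≤ W := by
    rw [hW', hW]
    apply Submodule.span_mono
    rintro _ ⟨i, rfl⟩
    exact ⟨c i, rfl⟩
  have hVle : V ≤ (W' ⊓ LinearMap.ker R) ⊔ S := by
    intro v hv
    obtain ⟨a, ha, s, hs, rfl⟩ := Submodule.mem_sup.1 (h2 (hVW hv))
    refine Submodule.add_mem_sup ⟨ha, ?_⟩ hs
    have h3 := hVK hv
    have h4 := Submodule.sub_mem _ h3 (hS hs)
    rwa [add_sub_cancel_right] at h4
  have hd : finrank ℚ V ≤ finrank ℚ ↥(W' ⊓ LinearMap.ker R) := by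
    have h3 := Submodule.finrank_sup_add_finrank_inf_eq V S
    rw [hVS, finrank_bot, add_zero] at h3
    have h4 : V ⊔ S ≤ (W' ⊓ LinearMap.ker R) ⊔ S := sup_le hVle le_sup_right
    have h5 := Submodule.finrank_mono h4
    have h6 := Submodule.finrank_add_le_finrank_add_finrank (W' ⊓ LinearMap.ker R) S
    omega
  have hWle := Submodule.finrank_mono hW'W
  have hν' : finrank ℚ W' ≤ (ν + 1) * finrank ℚ ↥(W' ⊓ LinearMap.ker R) := by
    rcases hν with h | h
    · exact hWle.trans (h.trans (Nat.mul_le_mul_left _ hd))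
    · have h3 := finrank_map_add R W'
      have h4 := Submodule.finrank_mono (Submodule.map_mono (f := R) hW'W)
      have h5 : ν * finrank ℚ V ≤ ν * finrank ℚ ↥(W' ⊓ LinearMap.ker R) :=
        Nat.mul_le_mul_left _ hd
      have h6 : (ν + 1) * finrank ℚ ↥(W' ⊓ LinearMap.ker R) =
        ν * finrank ℚ ↥(W' ⊓ LinearMap.ker R) + finrank ℚ ↥(W' ⊓ LinearMap.ker R) := by ring
      omega
  obtain ⟨n, hn0, hnW, hnR, hnle⟩ := rel_of_span M (fun i : I => w (c i)) (B := B) (C := C) hC1
    (fun i x => hw _ x) (fun i h => hC _ h) W' (LinearMap.ker R) hW' (fun f => by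
      rw [LinearMap.mem_ker]
      constructor
      · intro h3 h
        rw [← hR, h3]
        rfl
      · intro h3
        funext h
        rw [hR, h3]
        rfl) rfl (hV.trans_le hd) hν'
  refine ⟨n, fun hnS => hn0 ?_, hnR, fun x => (hnle x).trans ?_⟩
  · have h3 : (fun x => (n x : ℚ)) ∈ W' ⊓ S := ⟨hnW, hnS⟩
    rw [h1, Submodule.mem_bot] at h3
    funext x
    have h4 := congrFun h3 x
    simpa using h4
  · have h3 : finrank ℚ W' ≤ P := hWle.trans hP
    have h4 : finrank ℚ W' * B * (finrank ℚ W' * C) ^ ν ≤ P * B * (P * C) ^ ν := by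
      gcongr
    exact_mod_cast h4

variable {G X : Type*} [Group G] [Fintype G] [Fintype X] [DecidableEq X] [MulAction G X]

/-- **Large representations.** -/
theorem large {ε : X → ℤ} {M : ℕ} (hM : 1 ≤ M) (hε : ∀ x, |ε x| ≤ M)
    (V S : Submodule ℚ (X → ℚ)) (hV : V ≤ LinearMap.ker (Rw G ε))
    (hS : S ≤ LinearMap.ker (Rw G ε)) (hVS : V ⊓ S = ⊥) (hκ : 0 < finrank ℚ V) {e : ℕ}
    (he : Fintype.card X ≤ e * finrank ℚ V) :
    ∃ n : X → ℤ, (fun x => (n x : ℚ)) ∉ S ∧ (∀ h : G, ∑ x, n x * ε (h • x) = 0) ∧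
      ∀ x, |n x| ≤ ((Fintype.card X * M) ^ e : ℕ) := by
  have hcast : ∀ x : X, (fun y => ((Pi.single x (1 : ℤ) : X → ℤ) y : ℚ)) =
      Pi.single x (1 : ℚ) := by
    intro x
    funext y
    simp only [Pi.single_apply]
    push_cast
    rfl
  have htop : (⊤ : Submodule ℚ (X → ℚ)) =
      Submodule.span ℚ (Set.range fun (x : X) y => ((Pi.single x (1 : ℤ) : X → ℤ) y : ℚ)) := by
    symm
    rw [eq_top_iff]
    intro f _
    rw [pi_eq_sum_univ' f]
    refine Submodule.sum_mem _ fun x _ => Submodule.smul_mem _ _ ?_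
    refine Submodule.subset_span ⟨x, ?_⟩
    funext y
    exact congrFun (hcast x) y
  have hV0 : finrank ℚ V ≤ Fintype.card X := by
    have := Submodule.finrank_le V
    rwa [Module.finrank_fintype_fun_eq_card] at this
  have he0 : 0 < e := by
    rcases Nat.eq_zero_or_pos e with h | h
    · subst h
      omega
    · exact h
  obtain ⟨n, h1, h2, h3⟩ := rel_avoid (fun (h : G) x => ε (h • x)) (Rw G ε) (fun f h => rfl)
    (fun x => (Pi.single x (1 : ℤ) : X → ℤ)) (B := 1) (C := M) hM (fun x y => by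
      simp only [Pi.single_apply]
      split_ifs <;> simp) (fun x h => by
      have h1 : ∑ y, (Pi.single x (1 : ℤ) : X → ℤ) y * ε (h • y) = ε (h • x) := by
        simp [Pi.single_apply]
      rw [h1]
      exact hε _) ⊤ S V htop hS le_top hV hVS hκ (ν := e - 1) (P := Fintype.card X)
    (by rw [finrank_top, Module.finrank_fintype_fun_eq_card]) (Or.inl (by
      rw [finrank_top, Module.finrank_fintype_fun_eq_card, Nat.sub_add_cancel he0]
      exact he))
  refine ⟨n, h1, h2, fun x => (h3 x).trans ?_⟩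
  have h4 : Fintype.card X * 1 * (Fintype.card X * M) ^ (e - 1) ≤ (Fintype.card X * M) ^ e := by
    calc Fintype.card X * 1 * (Fintype.card X * M) ^ (e - 1)
        ≤ (Fintype.card X * M) * (Fintype.card X * M) ^ (e - 1) := by gcongr
      _ = _ := by rw [← pow_succ', Nat.sub_add_cancel he0]
  exact_mod_cast h4

/-- **Small representations.** -/
theorem small {ε : X → ℤ} {M : ℕ} (hM : 1 ≤ M) (hε : ∀ x, |ε x| ≤ M)
    (V S : Submodule ℚ (X → ℚ)) (ρ : Representation ℚ G V)
    (hV : V ≤ LinearMap.ker (Rw G ε)) (hS : S ≤ LinearMap.ker (Rw G ε)) (hVS : V ⊓ S = ⊥)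
    (hρ : ∀ (g : G) (v : V) y, (ρ g v : X → ℚ) y = (v : X → ℚ) (g⁻¹ • y)) (hirr : Irr ρ)
    (hκ : 0 < finrank ℚ V) (x₀ : X) (hU : 0 < finrank ℚ (U ρ x₀)) {L ν e : ℕ}
    (hL : finrank ℚ V < 2 ^ L)
    (hν : finrank ℚ (LinearMap.range (T (X := X) ρ)) ≤ (ν + 1) * finrank ℚ V ∨
      finrank ℚ V ≤ ν)
    (he : (finrank ℚ V * L / finrank ℚ (U ρ x₀) + 4) * (ν + 1) ≤ e) :
    ∃ n : X → ℤ, (fun x => (n x : ℚ)) ∉ S ∧ (∀ h : G, ∑ x, n x * ε (h • x) = 0) ∧
      ∀ x, |n x| ≤ ((Fintype.card X * M) ^ e : ℕ) := by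
  obtain ⟨κ, hκdef⟩ : ∃ κ, κ = finrank ℚ V := ⟨_, rfl⟩
  obtain ⟨m, hm⟩ : ∃ m, m = finrank ℚ (U ρ x₀) := ⟨_, rfl⟩
  have hκX : κ ≤ Fintype.card X := by
    have := Submodule.finrank_le V
    rw [Module.finrank_fintype_fun_eq_card, ← hκdef] at this
    exact this
  rw [← hκdef] at hκ hL hν he
  rw [← hm] at hU he
  have hbm : κ * L ≤ (κ * L / m + 1) * m := by
    have h1 := Nat.lt_mul_div_succ (κ * L) hU
    rw [mul_comm m] at h1
    exact h1.le
  obtain ⟨b, hb⟩ : ∃ b, b = κ * L / m + 1 := ⟨_, rfl⟩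
  rw [← hb] at hbm
  have he' : (b + 3) * (ν + 1) ≤ e := by
    rw [hb]
    exact he
  obtain ⟨s, hs⟩ := exists_base' ρ hirr (U ρ x₀) (b := b) (L := L) (by rw [← hκdef]; exact hL)
    (by rw [← hκdef, ← hm]; exact hbm) (by rw [← hm]; exact hU)
  obtain ⟨w, hw₀⟩ := exists_w (X := X) ρ
  have hkpos : ∀ x : X, (0 : ℚ) < Nat.card (Kx ρ x) := fun x => by
    exact_mod_cast Nat.card_pos
  have hwT : ∀ x, (fun y => (w x y : ℚ)) =
      (Nat.card (Kx ρ x) : ℚ)⁻¹ • T ρ (Pi.single x (1 : ℚ)) := by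
    intro x
    funext y
    rw [Pi.smul_apply, (hw₀ x y).1, smul_eq_mul, inv_mul_cancel_left₀ (hkpos x).ne']
  have hwle : ∀ x y, |w x y| ≤ (κ * Fintype.card X ^ b : ℕ) := by
    intro x y
    have h1 := (hw₀ x y).2
    rw [← hκdef] at h1
    have h2 := card_le_of_base ρ s x₀ hs x y
    have h3 : (0 : ℤ) < Nat.card (Kx ρ x) := by exact_mod_cast Nat.card_pos
    have h4 : |w x y| * Nat.card (Kx ρ x) ≤
        (κ * Fintype.card X ^ b : ℕ) * Nat.card (Kx ρ x) := by
      refine h1.trans ?_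
      have h5 : κ * (univ.filter fun g : G => g • x = y).card ≤
          (κ * Fintype.card X ^ b) * Nat.card (Kx ρ x) := by
        calc κ * (univ.filter fun g : G => g • x = y).card
            ≤ κ * (Nat.card (Kx ρ x) * Fintype.card X ^ b) := Nat.mul_le_mul_left _ h2
          _ = _ := by ring
      exact_mod_cast h5
    exact le_of_mul_le_mul_right h4 h3
  obtain ⟨W, hW⟩ : ∃ W, W = Submodule.span ℚ (Set.range fun (x : X) y => (w x y : ℚ)) := ⟨_, rfl⟩
  have hVW : V ≤ W := by
    intro v hv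
    obtain ⟨u, hu⟩ := range_le ρ hirr (by rw [← hκdef]; exact hκ) V.subtype hρ ⟨v, hv⟩
    have hu' : T ρ (u : X → ℚ) = v := hu
    rw [← hu', pi_eq_sum_univ' (u : X → ℚ), map_sum, hW]
    refine Submodule.sum_mem _ fun x _ => ?_
    rw [map_smul]
    refine Submodule.smul_mem _ _ ?_
    have h2 : T ρ (Pi.single x (1 : ℚ)) = (Nat.card (Kx ρ x) : ℚ) • fun y => (w x y : ℚ) := by
      rw [hwT, smul_smul, mul_inv_cancel₀ (hkpos x).ne', one_smul]
    rw [h2]
    exact Submodule.smul_mem _ _ (Submodule.subset_span ⟨x, rfl⟩)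
  have hWT : W ≤ LinearMap.range (T (X := X) ρ) := by
    rw [hW, Submodule.span_le]
    rintro _ ⟨x, rfl⟩
    change (fun y => (w x y : ℚ)) ∈ _
    rw [hwT]
    exact Submodule.smul_mem _ _ ⟨_, rfl⟩
  have hP : 0 < Fintype.card X := by omega
  have hB : 0 < κ * Fintype.card X ^ b := by positivity
  obtain ⟨n, h1, h2, h3⟩ := rel_avoid (fun (h : G) x => ε (h • x)) (Rw G ε) (fun f h => rfl)
    w (B := κ * Fintype.card X ^ b) (C := Fintype.card X * ((κ * Fintype.card X ^ b) * M))
    (Nat.mul_pos hP (Nat.mul_pos hB hM)) hwle (fun x h => by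
      refine (abs_sum_le_sum_abs _ _).trans ((sum_le_sum
        (g := fun _ => (((κ * Fintype.card X ^ b) * M : ℕ) : ℤ)) fun y _ => ?_).trans ?_)
      · rw [abs_mul, Nat.cast_mul]
        exact mul_le_mul (hwle _ _) (hε _) (abs_nonneg _) (by positivity)
      · rw [sum_const, nsmul_eq_mul, card_univ]
        push_cast
        exact le_rfl) W S V hW hS hVW hV hVS (by rw [← hκdef]; exact hκ) (ν := ν)
    (P := Fintype.card X) (by
      have := Submodule.finrank_le W
      rwa [Module.finrank_fintype_fun_eq_card] at this) (by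
      rw [← hκdef]
      rcases hν with h | h
      · exact Or.inl ((Submodule.finrank_mono hWT).trans h)
      · refine Or.inr ?_
        have h2 := finrank_rows_le ρ ε W hWT
        rw [← hκdef] at h2
        exact h2.trans (Nat.mul_le_mul_right _ h))
  refine ⟨n, h1, h2, fun x => (h3 x).trans ?_⟩
  have hPb : κ * Fintype.card X ^ b ≤ Fintype.card X ^ (b + 1) := by
    rw [pow_succ']
    exact Nat.mul_le_mul_right _ hκX
  have hPM : 1 ≤ Fintype.card X * M := Nat.mul_pos hP hM
  have h4 : Fintype.card X * (κ * Fintype.card X ^ b) *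
      (Fintype.card X * (Fintype.card X * ((κ * Fintype.card X ^ b) * M))) ^ ν ≤
      (Fintype.card X * M) ^ e := by
    calc Fintype.card X * (κ * Fintype.card X ^ b) *
          (Fintype.card X * (Fintype.card X * ((κ * Fintype.card X ^ b) * M))) ^ ν
        ≤ Fintype.card X * Fintype.card X ^ (b + 1) *
          (Fintype.card X * (Fintype.card X * (Fintype.card X ^ (b + 1) * M))) ^ ν := by
          gcongr
      _ = Fintype.card X ^ (b + 2) * (Fintype.card X ^ (b + 3) * M) ^ ν := by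
          congr 1
          · ring
          · congr 1
            ring
      _ ≤ (Fintype.card X * M) ^ (b + 3) * ((Fintype.card X * M) ^ (b + 3)) ^ ν := by
          have h5 : Fintype.card X ^ (b + 2) ≤ (Fintype.card X * M) ^ (b + 3) := by
            calc Fintype.card X ^ (b + 2) ≤ (Fintype.card X * M) ^ (b + 2) :=
                  Nat.pow_le_pow_left (Nat.le_mul_of_pos_right _ hM) _
              _ ≤ (Fintype.card X * M) ^ (b + 3) := Nat.pow_le_pow_right hPM (by omega)
          have h6 : Fintype.card X ^ (b + 3) * M ≤ (Fintype.card X * M) ^ (b + 3) := by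
            rw [mul_pow]
            exact Nat.mul_le_mul_left _ (Nat.le_self_pow (by omega) M)
          exact Nat.mul_le_mul h5 (Nat.pow_le_pow_left h6 _)
      _ = (Fintype.card X * M) ^ ((b + 3) * (ν + 1)) := by
          rw [← pow_mul, ← pow_add]
          congr 1
          ring
      _ ≤ _ := Nat.pow_le_pow_right hPM he'
  exact_mod_cast h4

/-- there is an irreducible invariant subspace in every invariant subspace -/
theorem exists_irr' (Q : Submodule ℚ (X → ℚ)) (hQ : ∀ g : G, ∀ f ∈ Q, perm G X g f ∈ Q)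
    (hne : Q ≠ ⊥) : ∃ (V : Submodule ℚ (X → ℚ)) (ρ : Representation ℚ G V),
      V ≤ Q ∧ V ≠ ⊥ ∧ (∀ (g : G) (v : V) y, (ρ g v : X → ℚ) y = (v : X → ℚ) (g⁻¹ • y)) ∧
        Irr ρ := by
  obtain ⟨V, ⟨hV, hV0, hVinv⟩, hmin⟩ := wellFounded_lt.has_min
    {S : Submodule ℚ (X → ℚ) | S ≤ Q ∧ S ≠ ⊥ ∧ ∀ g : G, S.map (perm G X g) ≤ S}
    ⟨Q, le_rfl, hne, fun g => by
      rintro _ ⟨f, hf, rfl⟩
      exact hQ g f hf⟩
  have hVm : ∀ g : G, ∀ v ∈ V, perm G X g v ∈ V := fun g v hv => hVinv g ⟨v, hv, rfl⟩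
  let ρ : Representation ℚ G V :=
    { toFun := fun g => (perm G X g).restrict (hVm g)
      map_one' := by
        ext v
        simp [LinearMap.restrict_apply]
      map_mul' := fun g h => by
        refine LinearMap.ext fun v => Subtype.ext ?_
        simp [LinearMap.restrict_apply] }
  refine ⟨V, ρ, hV, hV0, fun g v y => rfl, ?_⟩
  intro S hS
  by_cases h0 : S = ⊥
  · exact Or.inl h0
  · refine Or.inr ?_
    by_contra htop
    refine hmin (S.map V.subtype) ⟨?_, ?_, ?_⟩ ?_
    · rintro _ ⟨v, _, rfl⟩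
      exact hV v.2
    · intro h1
      apply h0
      rw [← Submodule.map_bot V.subtype] at h1
      exact Submodule.map_injective_of_injective V.injective_subtype h1
    · rintro g _ ⟨_, ⟨v, hv, rfl⟩, rfl⟩
      exact ⟨ρ g v, hS g ⟨v, hv, rfl⟩, rfl⟩
    · refine lt_of_le_of_ne ?_ ?_
      · rintro _ ⟨v, _, rfl⟩
        exact v.2
      · intro h1
        apply htop
        have h2 : S.map V.subtype = (⊤ : Submodule ℚ V).map V.subtype := by
          rw [h1, Submodule.map_top, Submodule.range_subtype]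
        exact Submodule.map_injective_of_injective V.injective_subtype h2

/-- the integral functions with small values orthogonal to the conjugates -/
def short (G : Type*) {X : Type*} [Group G] [Fintype X] [MulAction G X] (ε : X → ℤ) (B : ℕ) :
    Set (X → ℚ) :=
  {f | ∃ n : X → ℤ, (∀ h : G, ∑ x, n x * ε (h • x) = 0) ∧ (∀ x, |n x| ≤ B) ∧
    f = fun x => (n x : ℚ)}

/-- the standard form -/
noncomputable def dotB (X : Type*) [Fintype X] : LinearMap.BilinForm ℚ (X → ℚ) :=
  LinearMap.mk₂ ℚ (fun f g => ∑ x, f x * g x)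
    (fun a b c => by simp only [Pi.add_apply, add_mul, sum_add_distrib])
    (fun c a b => by simp only [Pi.smul_apply, smul_eq_mul, mul_assoc, mul_sum])
    (fun a b c => by simp only [Pi.add_apply, mul_add, sum_add_distrib])
    (fun c a b => by simp only [Pi.smul_apply, smul_eq_mul, mul_left_comm, mul_sum])

theorem dotB_apply (f g : X → ℚ) : dotB X f g = ∑ x, f x * g x := rfl

/-- **The relations are spanned by small relations.** -/
theorem span_short {ε : X → ℤ} {M : ℕ} (hM : 1 ≤ M) (hε : ∀ x, |ε x| ≤ M) {I : Type*} [Fintype I]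
    (x : I → X) (hx : ∀ y, ∃ i, ∃ g : G, g • x i = y) {P e : ℕ} (hP : Fintype.card X ≤ P)
    (he : Fintype.card I * P * (Nat.log 2 P + 5) ≤ e ^ 2 ∨
      2 * P ^ 2 * (Nat.log 2 P + 5) ≤ e ^ 3) :
    LinearMap.ker (Rw G ε) ≤ Submodule.span ℚ (short G ε ((P * M) ^ e)) := by
  classical
  obtain ⟨S, hSdef⟩ : ∃ S, S = Submodule.span ℚ (short (X := X) G ε ((P * M) ^ e)) := ⟨_, rfl⟩
  rw [← hSdef]
  have hS : S ≤ LinearMap.ker (Rw G ε) := by
    rw [hSdef, Submodule.span_le]
    rintro _ ⟨n, hn, -, rfl⟩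
    change (fun x => (n x : ℚ)) ∈ LinearMap.ker (Rw G ε)
    rw [LinearMap.mem_ker]
    funext h
    rw [Rw_apply]
    have h1 := hn h
    change _ = (0 : ℚ)
    exact_mod_cast h1
  have hKst : ∀ g : G, ∀ f ∈ LinearMap.ker (Rw (X := X) G ε),
      perm G X g f ∈ LinearMap.ker (Rw G ε) := by
    intro g f hf
    rw [LinearMap.mem_ker] at hf ⊢
    funext h
    have h1 := congrFun hf (h * g)
    rw [Rw_apply] at h1 ⊢
    change _ = (0 : ℚ)
    change _ = (0 : ℚ) at h1
    rw [← h1]
    refine (Fintype.sum_equiv (MulAction.toPerm g) _ _ fun x => ?_).symm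
    rw [perm_apply, MulAction.toPerm_apply, inv_smul_smul, mul_smul]
  have hSst : ∀ g : G, ∀ f ∈ S, perm G X g f ∈ S := by
    intro g f hf
    rw [hSdef] at hf ⊢
    induction hf using Submodule.span_induction with
    | mem f hf =>
      obtain ⟨n, hn, hnle, rfl⟩ := hf
      refine Submodule.subset_span ⟨fun y => n (g⁻¹ • y), fun h => ?_, fun y => hnle _, ?_⟩
      · rw [← hn (h * g)]
        refine (Fintype.sum_equiv (MulAction.toPerm g) _ _ fun x => ?_).symm
        rw [MulAction.toPerm_apply]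
        change _ = n (g⁻¹ • g • x) * _
        rw [inv_smul_smul, mul_smul]
      · funext y
        rfl
    | zero => rw [map_zero]; exact Submodule.zero_mem _
    | add a b _ _ ha hb => rw [map_add]; exact Submodule.add_mem _ ha hb
    | smul c a _ ha => rw [map_smul]; exact Submodule.smul_mem _ _ ha
  by_contra hne
  -- the orthogonal complement
  obtain ⟨Q, hQ⟩ : ∃ Q, Q = LinearMap.ker (Rw (X := X) G ε) ⊓ (dotB X).orthogonal S := ⟨_, rfl⟩
  have hdis : Disjoint S ((dotB X).orthogonal S) := by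
    rw [Submodule.disjoint_def]
    intro f hf hf'
    have h1 : dotB X f f = 0 := hf' f hf
    rw [dotB_apply] at h1
    have h2 := (sum_eq_zero_iff_of_nonneg fun x _ => mul_self_nonneg (f x)).1 h1
    funext x
    exact mul_self_eq_zero.1 (h2 x (mem_univ x))
  have hcompl : IsCompl S ((dotB X).orthogonal S) := by
    refine (LinearMap.BilinForm.isCompl_orthogonal_iff_disjoint (B := dotB X) ?_).2 hdis
    intro f g h
    rw [dotB_apply] at h ⊢
    rw [← h]
    exact sum_congr rfl fun x _ => mul_comm _ _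
  have hQ0 : Q ≠ ⊥ := by
    intro hQ0
    apply hne
    intro f hf
    have h1 : f ∈ S ⊔ (dotB X).orthogonal S := by
      rw [hcompl.sup_eq_top]
      trivial
    obtain ⟨a, ha, b, hb, rfl⟩ := Submodule.mem_sup.1 h1
    have h2 : b ∈ Q := by
      rw [hQ]
      refine ⟨?_, hb⟩
      have h3 := Submodule.sub_mem _ hf (hS ha)
      rwa [add_sub_cancel_left] at h3
    rw [hQ0, Submodule.mem_bot] at h2
    rw [h2, add_zero]
    exact ha
  have hQst : ∀ g : G, ∀ f ∈ Q, perm G X g f ∈ Q := by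
    intro g f hf
    rw [hQ] at hf ⊢
    refine ⟨hKst g f hf.1, fun s hs => ?_⟩
    have h1 : dotB X (perm G X g⁻¹ s) f = 0 := hf.2 _ (hSst g⁻¹ s hs)
    change dotB X s (perm G X g f) = 0
    rw [← h1, dotB_apply, dotB_apply]
    refine (Fintype.sum_equiv (MulAction.toPerm g) _ _ fun x => ?_).symm
    rw [MulAction.toPerm_apply, perm_apply, perm_apply, inv_inv, inv_smul_smul]
  obtain ⟨V, ρ, hVQ, hV0, hρ, hirr⟩ := exists_irr' Q hQst hQ0
  have hV : V ≤ LinearMap.ker (Rw G ε) := fun v hv => by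
    have h1 := hVQ hv
    rw [hQ] at h1
    exact h1.1
  have hVS : V ⊓ S = ⊥ := by
    rw [eq_bot_iff]
    rintro v ⟨hv, hvS⟩
    have h1 := hVQ hv
    rw [hQ] at h1
    exact Submodule.disjoint_def.1 hdis v hvS h1.2
  have hκ : 0 < finrank ℚ V := by
    rw [Nat.pos_iff_ne_zero]
    intro h
    exact hV0 (Submodule.finrank_eq_zero.1 h)
  -- it is enough to find a short relation outside S
  suffices hsuff : ∃ n : X → ℤ, (fun x => (n x : ℚ)) ∉ S ∧
      (∀ h : G, ∑ x, n x * ε (h • x) = 0) ∧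
      ∀ x, |n x| ≤ ((Fintype.card X * M) ^ e : ℕ) by
    obtain ⟨n, h1, h2, h3⟩ := hsuff
    apply h1
    rw [hSdef]
    refine Submodule.subset_span ⟨n, h2, fun x => (h3 x).trans ?_, rfl⟩
    have h4 : (Fintype.card X * M) ^ e ≤ (P * M) ^ e :=
      Nat.pow_le_pow_left (Nat.mul_le_mul_right _ hP) _
    exact_mod_cast h4
  by_cases hlarge : P ≤ e * finrank ℚ V
  · exact large hM hε V S hV hS hVS hκ (hP.trans hlarge)
  push Not at hlarge
  have hκg : finrank ℚ V ≤ P := by
    have := Submodule.finrank_le V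
    rw [Module.finrank_fintype_fun_eq_card] at this
    exact this.trans hP
  have hVT : V ≤ LinearMap.range (T (X := X) ρ) := by
    intro v hv
    obtain ⟨u, hu⟩ := range_le ρ hirr hκ V.subtype hρ ⟨v, hv⟩
    exact ⟨_, hu⟩
  have hdim := Submodule.finrank_mono hVT
  have hT := finrank_T_le ρ x hx
  have hI : Nonempty I := by
    by_contra hI
    rw [not_nonempty_iff] at hI
    rw [Fintype.sum_empty, mul_zero] at hT
    omega
  obtain ⟨i₀, -, hi₀⟩ := exists_max_image univ (fun i => finrank ℚ (U ρ (x i))) univ_nonempty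
  have hsum : ∑ i, finrank ℚ (U ρ (x i)) ≤ Fintype.card I * finrank ℚ (U ρ (x i₀)) := by
    refine (sum_le_sum fun i hi => hi₀ i hi).trans ?_
    rw [sum_const, smul_eq_mul, card_univ]
  have hU : 0 < finrank ℚ (U ρ (x i₀)) := by
    rw [Nat.pos_iff_ne_zero]
    intro h
    rw [h, mul_zero] at hsum
    have h1 : ∑ i, finrank ℚ (U ρ (x i)) = 0 := by omega
    rw [h1, mul_zero] at hT
    omega
  have hUle : finrank ℚ (U ρ (x i₀)) ≤ finrank ℚ V := Submodule.finrank_le _
  have hL : finrank ℚ V < 2 ^ (Nat.log 2 P + 1) :=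
    lt_of_le_of_lt hκg (Nat.lt_pow_succ_log_self (by norm_num) P)
  obtain ⟨κ, hκdef⟩ : ∃ κ, κ = finrank ℚ V := ⟨_, rfl⟩
  obtain ⟨m, hm⟩ : ∃ m, m = finrank ℚ (U ρ (x i₀)) := ⟨_, rfl⟩
  obtain ⟨L, hLdef⟩ : ∃ L, L = Nat.log 2 P := ⟨_, rfl⟩
  have hcs := fun ν => small hM hε V S ρ hV hS hVS hρ hirr hκ (x i₀) hU hL (e := e)
    (ν := ν)
  rw [← hκdef, ← hm, ← hLdef] at hcs
  rw [← hκdef] at hlarge hκ hκg hT hdim hUle
  rw [← hm] at hU hUle hsum
  rw [← hLdef] at he
  have hg : 0 < P := by omega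
  rcases he with he | he
  · -- the bound with the number of the orbits
    have ht : 0 < Fintype.card I := Fintype.card_pos
    obtain ⟨t, htdef⟩ : ∃ t, t = Fintype.card I := ⟨_, rfl⟩
    rw [← htdef] at he ht hsum
    have htm : 0 < t * m := Nat.mul_pos ht hU
    refine hcs (t * m - 1) (Or.inl ?_) ?_
    · rw [Nat.sub_add_cancel htm]
      refine hT.trans ?_
      rw [mul_comm]
      exact Nat.mul_le_mul_right _ hsum
    · rw [Nat.sub_add_cancel htm]
      have h1 : κ * (L + 1) / m * m ≤ κ * (L + 1) := Nat.div_mul_le_self _ _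
      have h2 : (κ * (L + 1) / m + 4) * (t * m) ≤ t * (κ * (L + 5)) := by
        calc (κ * (L + 1) / m + 4) * (t * m) = t * (κ * (L + 1) / m * m + 4 * m) := by ring
          _ ≤ t * (κ * (L + 1) + 4 * κ) := by gcongr
          _ = _ := by ring
      refine h2.trans ?_
      by_contra h3
      push Not at h3
      have h5 : e ^ 2 < t * P * (L + 5) := by
        rcases Nat.eq_zero_or_pos e with h6 | h6
        · subst h6
          positivity
        · calc e ^ 2 = e * e := sq e
            _ < e * (t * (κ * (L + 5))) := Nat.mul_lt_mul_of_pos_left h3 h6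
            _ = t * (e * κ) * (L + 5) := by ring
            _ ≤ t * P * (L + 5) := by gcongr
      omega
  · refine hcs κ (Or.inr le_rfl) ?_
    have h1 : κ * (L + 1) / m ≤ κ * (L + 1) := Nat.div_le_self _ _
    have h2 : (κ * (L + 1) / m + 4) * (κ + 1) ≤ 2 * κ ^ 2 * (L + 5) := by
      calc (κ * (L + 1) / m + 4) * (κ + 1) ≤ (κ * (L + 1) + 4 * κ) * (κ + κ) := by
            gcongr
            · omega
            · omega
        _ = _ := by ring
    refine h2.trans ?_
    by_contra h3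
    push Not at h3
    have h5 : e ^ 3 < 2 * P ^ 2 * (L + 5) := by
      rcases Nat.eq_zero_or_pos e with h6 | h6
      · subst h6
        positivity
      · calc e ^ 3 = e ^ 2 * e := by ring
          _ < e ^ 2 * (2 * κ ^ 2 * (L + 5)) := Nat.mul_lt_mul_of_pos_left h3 (by positivity)
          _ = 2 * (e * κ) ^ 2 * (L + 5) := by ring
          _ ≤ 2 * P ^ 2 * (L + 5) := by gcongr
    omega

end Pool.Agent.N90.ST
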