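import Pool.Agent.N90.ST.Comb

/-!
# The group of integral relations is generated by small relations
-/

set_option autoImplicit false
set_option linter.unusedSectionVars false

namespace Pool.Agent.N90.ST

open Module Finset Pool.Agent.N90.SX

variable {G X : Type*} [Group G] [Fintype G] [Fintype X] [DecidableEq X] [MulAction G X]

/-- the small integral relations of even weight -/
def shortZ (G : Type*) {X : Type*} [Group G] [Fintype X] [MulAction G X] (ε : X → ℤ) (w : X → ℤ)
    (B : ℕ) : Set (X → ℤ) :=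
  {n | (∀ h : G, ∑ x, n x * ε (h • x) = 0) ∧ Even (∑ x, n x * w x) ∧ ∀ x, |n x| ≤ B}

/-- **The group of the integral relations of even weight is generated by small relations.** -/
theorem gen_short {ε : X → ℤ} {M : ℕ} (hM : 1 ≤ M) (hε : ∀ x, |ε x| ≤ M) {I : Type*} [Fintype I]
    (x : I → X) (hx : ∀ y, ∃ i, ∃ g : G, g • x i = y) {P e : ℕ} (hP : Fintype.card X ≤ P)
    (he : Fintype.card I * P * (Nat.log 2 P + 5) ≤ e ^ 2 ∨
      2 * P ^ 2 * (Nat.log 2 P + 5) ≤ e ^ 3) (w : X → ℤ) (n : X → ℤ)
    (hn : ∀ h : G, ∑ x, n x * ε (h • x) = 0) (hnw : Even (∑ x, n x * w x)) :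
    n ∈ AddSubgroup.closure (shortZ G ε w (2 * P * (P * M) ^ e)) := by
  classical
  have hspan := span_short (G := G) hM hε x hx hP he
  have hle : Submodule.span ℚ (short (X := X) G ε ((P * M) ^ e)) ≤ LinearMap.ker (Rw G ε) := by
    rw [Submodule.span_le]
    rintro _ ⟨n, hn, -, rfl⟩
    change (fun x => (n x : ℚ)) ∈ LinearMap.ker (Rw G ε)
    rw [LinearMap.mem_ker]
    funext h
    rw [Rw_apply]
    have h1 := hn h
    change _ = (0 : ℚ)
    exact_mod_cast h1
  have hnK : (fun x => (n x : ℚ)) ∈ Submodule.span ℚ (short (X := X) G ε ((P * M) ^ e)) := by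
    apply hspan
    rw [LinearMap.mem_ker]
    funext h
    rw [Rw_apply]
    have h1 := hn h
    change _ = (0 : ℚ)
    exact_mod_cast h1
  obtain ⟨r, f, hr, hf, hfspan, -⟩ : ∃ (r : ℕ) (f : Fin r → X → ℚ), r ≤ P ∧
      (∀ i, f i ∈ short (X := X) G ε ((P * M) ^ e)) ∧
      Submodule.span ℚ (Set.range f) = Submodule.span ℚ (short (X := X) G ε ((P * M) ^ e)) ∧
      LinearIndependent ℚ f := by
    obtain ⟨f, hf, hspan', hli⟩ :=
      Submodule.exists_fun_fin_finrank_span_eq ℚ (short (X := X) G ε ((P * M) ^ e))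
    refine ⟨_, f, ?_, hf, hspan', hli⟩
    have := Submodule.finrank_le (Submodule.span ℚ (short (X := X) G ε ((P * M) ^ e)))
    rw [Module.finrank_fintype_fun_eq_card] at this
    exact this.trans hP
  choose v hv1 hv2 hv3 using hf
  rw [← hfspan, Submodule.mem_span_range_iff_exists_fun] at hnK
  obtain ⟨a, ha⟩ := hnK
  let c : Fin r → ℤ := fun i => ⌊a i / 2⌋
  let m : X → ℤ := fun y => n y - ∑ i, c i * (2 * v i y)
  have hm : ∀ y, m y = n y - ∑ i, c i * (2 * v i y) := fun y => rfl
  have hnm : n = m + ∑ i, c i • (2 • v i) := by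
    funext y
    rw [Pi.add_apply, hm, Finset.sum_apply]
    have h1 : ∀ i, (c i • (2 • v i)) y = c i * (2 * v i y) := by
      intro i
      rw [Pi.smul_apply, Pi.smul_apply, smul_eq_mul, nsmul_eq_mul]
      push_cast
      rfl
    rw [sum_congr rfl fun i _ => h1 i]
    ring
  have hva : ∀ y, (n y : ℚ) = ∑ i, a i * v i y := by
    intro y
    have h1 := congrFun ha y
    rw [← h1, Finset.sum_apply]
    refine sum_congr rfl fun i _ => ?_
    rw [Pi.smul_apply, smul_eq_mul, hv3 i]
  have hrow2 : ∀ i, (∀ h : G, ∑ x, (2 • v i) x * ε (h • x) = 0) := by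
    intro i h
    have h1 := hv1 i h
    have h2 : ∑ x, (2 • v i) x * ε (h • x) = 2 * ∑ x, v i x * ε (h • x) := by
      rw [mul_sum]
      refine sum_congr rfl fun x _ => ?_
      rw [Pi.smul_apply, nsmul_eq_mul]
      push_cast
      ring
    rw [h2, h1, mul_zero]
  have hmem2 : ∀ i, (2 • v i) ∈ AddSubgroup.closure (shortZ G ε w (2 * P * (P * M) ^ e)) := by
    intro i
    apply AddSubgroup.subset_closure
    refine ⟨hrow2 i, ?_, fun y => ?_⟩
    · have h2 : ∑ x, (2 • v i) x * w x = 2 * ∑ x, v i x * w x := by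
        rw [mul_sum]
        refine sum_congr rfl fun x _ => ?_
        rw [Pi.smul_apply, nsmul_eq_mul]
        push_cast
        ring
      rw [h2]
      exact even_two_mul _
    · have h1 := hv2 i y
      have h3 : 1 ≤ P := by
        have := i.2
        omega
      rw [Pi.smul_apply, nsmul_eq_mul, abs_mul]
      have h4 : 2 * (P * M) ^ e ≤ 2 * P * (P * M) ^ e := by
        have : 2 * 1 ≤ 2 * P := Nat.mul_le_mul_left _ h3
        exact Nat.mul_le_mul_right _ (by omega)
      have h5 : ((2 * (P * M) ^ e : ℕ) : ℤ) ≤ ((2 * P * (P * M) ^ e : ℕ) : ℤ) := by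
        exact_mod_cast h4
      refine le_trans ?_ h5
      push_cast
      have h6 : |(2 : ℤ)| = 2 := by norm_num
      rw [h6]
      push_cast at h1
      linarith
  rw [hnm]
  refine AddSubgroup.add_mem _ (AddSubgroup.subset_closure ⟨?_, ?_, ?_⟩)
    (AddSubgroup.sum_mem _ fun i _ => AddSubgroup.zsmul_mem _ (hmem2 i) _)
  · intro h
    have h1 : ∑ x, m x * ε (h • x) =
        ∑ x, n x * ε (h • x) - ∑ i, c i * (2 * ∑ x, v i x * ε (h • x)) := by
      simp only [hm, sub_mul, sum_sub_distrib, sum_mul, mul_sum]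
      congr 1
      rw [sum_comm]
      refine sum_congr rfl fun i _ => sum_congr rfl fun x _ => ?_
      ring
    rw [h1, hn]
    simp only [hv1, mul_zero, sum_const_zero, sub_zero]
  · have h1 : ∑ x, m x * w x =
        ∑ x, n x * w x - 2 * ∑ i, c i * ∑ x, v i x * w x := by
      simp only [hm, sub_mul, sum_sub_distrib, sum_mul, mul_sum]
      congr 1
      rw [sum_comm]
      refine sum_congr rfl fun i _ => sum_congr rfl fun x _ => ?_
      ring
    rw [h1]
    exact hnw.sub (even_two_mul _)
  · intro y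
    have h1 : (m y : ℚ) = ∑ i, (a i - 2 * c i) * v i y := by
      rw [hm]
      push_cast
      rw [hva, ← sum_sub_distrib]
      refine sum_congr rfl fun i _ => ?_
      ring
    have h2 : |(m y : ℚ)| ≤ (2 * P * (P * M) ^ e : ℕ) := by
      rw [h1]
      refine (abs_sum_le_sum_abs _ _).trans ((sum_le_sum
        (g := fun _ => (2 : ℚ) * ((P * M) ^ e : ℕ)) fun i _ => ?_).trans ?_)
      · rw [abs_mul]
        have h3 : |a i - 2 * (c i : ℚ)| ≤ 2 := by
          have h4 := Int.floor_le (a i / 2)
          have h5 := Int.lt_floor_add_one (a i / 2)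
          rw [abs_le]
          constructor <;> simp only [c] <;> linarith
        have h4 : |(v i y : ℚ)| ≤ ((P * M) ^ e : ℕ) := by
          have := hv2 i y
          exact_mod_cast this
        exact mul_le_mul h3 h4 (abs_nonneg _) (by norm_num)
      · rw [sum_const, card_univ, Fintype.card_fin, nsmul_eq_mul]
        have h5 : (r : ℚ) ≤ P := by exact_mod_cast hr
        push_cast
        have h6 : (0 : ℚ) ≤ ((P : ℚ) * M) ^ e := by positivity
        nlinarith [mul_le_mul_of_nonneg_right h5 (mul_nonneg (by norm_num : (0 : ℚ) ≤ 2) h6)]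
    have h3 : ((|m y| : ℤ) : ℚ) ≤ ((2 * P * (P * M) ^ e : ℕ) : ℤ) := by
      push_cast
      push_cast at h2
      exact h2
    exact_mod_cast h3

end Pool.Agent.N90.ST
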